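import Pool.Agent.Helper9.EQ.Orbit

/-!
# Left 3-Engel involutions: subgroups generated by four conjugates, and by `x` and a finite subgroup

`cm a b` is the commutator `a⁻¹ b⁻¹ a b`.  Let `x` be a left 3-Engel element with `x² = 1` of an arbitrary group.

* Four conjugates `a, b, c, d` of `x` with `(abcd)² = 1` generate a finite group.
* If `F` is a finite subgroup and some `f ∈ F` satisfies `[x, f⁴] = 1`, `(xf)⁸ = f⁸` and `x^F = x^⟨f⟩`, then `⟨F, x⟩` is finite.
  In a group of exponent 8 this applies to `F = ⟨f⟩` for every `f` with `f⁴ = 1` (and for every `f` with `[x, f⁴] = 1`).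

The proof of the first part is a coset enumeration (1024 conjugates of `a`), verified by the kernel, and Dietzmann's lemma.
-/

set_option autoImplicit false

namespace Pool.Agent.Results.MP_2c326f_al.FourConjugates

open Pool.Agent.Helper9.EQ

theorem result {G : Type*} [Group G] (x : G) (hx : x ^ 2 = 1) (hE : ∀ g : G, cm (cm (cm g x) x) x = 1) :
    (∀ p q r s : G, (p⁻¹ * x * p * (q⁻¹ * x * q) * (r⁻¹ * x * r) * (s⁻¹ * x * s)) ^ 2 = 1 →
      Finite (Subgroup.closure ({p⁻¹ * x * p, q⁻¹ * x * q, r⁻¹ * x * r, s⁻¹ * x * s} : Set G))) ∧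
    (∀ F : Subgroup G, Finite F → ∀ f ∈ F, f ^ 4 * x = x * f ^ 4 → (x * f) ^ 8 = f ^ 8 →
      (∀ h ∈ F, ∃ i : ℕ, h⁻¹ * x * h = (f ^ i)⁻¹ * x * f ^ i) → Finite (Subgroup.closure ((F : Set G) ∪ {x}))) ∧
    (∀ f : G, f ^ 8 = 1 → (x * f) ^ 8 = 1 → f ^ 4 * x = x * f ^ 4 → Finite (Subgroup.closure ({x, f} : Set G))) := by
  refine ⟨fun p q r s h => four_engel x hx hE p q r s h,
    fun F hF f hf h1 h2 h3 => orbit_engel x hx hE F hF f hf h1 h2 h3, ?_⟩
  intro f hf hxf hc
  have hpow : ∀ h ∈ Subgroup.zpowers f, ∃ i : ℕ, i < 8 ∧ h = f ^ i := by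
    intro h hh
    obtain ⟨n, rfl⟩ := Subgroup.mem_zpowers_iff.1 hh
    have h0 : 0 ≤ n % 8 := Int.emod_nonneg _ (by norm_num)
    have h1 : n % 8 < 8 := Int.emod_lt_of_pos _ (by norm_num)
    refine ⟨(n % 8).toNat, by omega, ?_⟩
    rw [← zpow_natCast, Int.toNat_of_nonneg h0]
    conv_lhs => rw [← Int.emod_add_mul_ediv n 8, zpow_add, zpow_mul]
    have h8 : f ^ (8 : ℤ) = 1 := by exact_mod_cast hf
    rw [h8, one_zpow, mul_one]
  have hfin : Finite (Subgroup.zpowers f) := by
    have h1 : ((Subgroup.zpowers f : Subgroup G) : Set G) ⊆ (fun i : ℕ => f ^ i) '' (Set.Iio 8) := by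
      intro h hh
      obtain ⟨i, hi, rfl⟩ := hpow h hh
      exact ⟨i, hi, rfl⟩
    exact (((Set.finite_Iio 8).image _).subset h1).to_subtype
  have h := orbit_engel x hx hE (Subgroup.zpowers f) hfin f (Subgroup.mem_zpowers f) hc (by rw [hxf, hf]) (by
    intro h hh
    obtain ⟨i, _, rfl⟩ := hpow h hh
    exact ⟨i, rfl⟩)
  have hle : Subgroup.closure ({x, f} : Set G) ≤ Subgroup.closure (((Subgroup.zpowers f : Subgroup G) : Set G) ∪ {x}) := by
    apply Subgroup.closure_mono
    rintro z (rfl | rfl)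
    · exact Or.inr rfl
    · exact Or.inl (Subgroup.mem_zpowers z)
  exact Finite.of_injective _ (Subgroup.inclusion_injective hle)

end Pool.Agent.Results.MP_2c326f_al.FourConjugates
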