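import Pool.Agent.Helper94.SV.KFF
import Pool.Agent.Helper46.SV.KQ1

/-!
# Left 3-Engel involutions and sections isomorphic to a Sylow 2-subgroup of `S₈`

`cm a b` is the commutator `a⁻¹ b⁻¹ a b`; `LocFin G` says that every finitely generated subgroup of
`G` is finite.

Let `x` be a left 3-Engel element with `x² = 1` of an arbitrary group `G`, and let `P` be a Sylow
2-subgroup of the symmetric group of degree 8 (`|P| = 128`).  If no finite subgroup of the normal closure
of `x` has a section isomorphic to `P`, then the normal closure of `x` is locally finite.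
-/

set_option autoImplicit false

open Subgroup Pool.Agent.Helper94.SV

namespace Pool.Agent.Results.MP_2c326f_al.NoSylowSections

universe u

theorem result (G : Type u) [Group G] (x : G) (hx : x * x = 1)
    (hE : ∀ g : G, cm (cm (cm g x) x) x = 1) (P : Sylow 2 (Equiv.Perm (Fin 8)))
    (hP : ∀ (H : Subgroup (normalClosure ({x} : Set G))) (K : Subgroup H) [K.Normal], Finite H →
      IsEmpty ((H ⧸ K) ≃* P)) :
    LocFin (normalClosure ({x} : Set G)) :=
  KFF.partK' Pool.Agent.Helper46.SV.hkq1 G hx hE P hP

end Pool.Agent.Results.MP_2c326f_al.NoSylowSections
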