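import Pool.Agent.Helper94.SV.Main

/-!
# Normal closure of a left 3-Engel involution: local finiteness relative to a normal subgroup

`cm a b` is the commutator `a⁻¹ b⁻¹ a b`; `LocFin G` says that every finitely generated subgroup of
`G` is finite; `conjs x` is the set of conjugates of `x` in `G`, as elements of the normal closure
`N` of `x`.

Let `x` be a left 3-Engel element with `x² = 1` of a group `G`, and `F' ≤ F` normal subgroups of
`N` with `N / F` locally finite.  Then `N / F'` is locally finite if and only if `⟨K, y F'⟩` is
finite for every finite subgroup `K` of `F / F'` and every conjugate `y` of `x`; and this is the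
case if `(y h)⁴ ∈ F'` for all conjugates `y` of `x` and all `h ∈ F`.
-/

set_option autoImplicit false

open Subgroup Pool.Agent.Helper94.SV

namespace Pool.Agent.Results.MP_2c326f_al.RelativeLocalFiniteness

universe u

theorem result {G : Type u} [Group G] {x : G} (hx : x * x = 1)
    (hE : ∀ g : G, cm (cm (cm g x) x) x = 1)
    (F F' : Subgroup (normalClosure ({x} : Set G))) [F.Normal] [F'.Normal] (hle : F' ≤ F)
    (hF : LocFin (normalClosure ({x} : Set G) ⧸ F)) :
    (LocFin (normalClosure ({x} : Set G) ⧸ F') ↔
      ∀ K : Subgroup (normalClosure ({x} : Set G) ⧸ F'), Finite K →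
        K ≤ F.map (QuotientGroup.mk' F') → ∀ y ∈ conjs x,
        Finite (K ⊔ closure {QuotientGroup.mk' F' y} :
          Subgroup (normalClosure ({x} : Set G) ⧸ F'))) ∧
    ((∀ y ∈ conjs x, ∀ h ∈ F, (y * h) ^ 4 ∈ F') →
      LocFin (normalClosure ({x} : Set G) ⧸ F')) :=
  ⟨⟨fun h K hK _ _ _ => base_of_locFin h K hK _, locFin_quotient hx hE F F' hle hF⟩,
    locFin_quotient_of_flips hx hE F F' hle hF⟩

end Pool.Agent.Results.MP_2c326f_al.RelativeLocalFiniteness
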