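import Pool.Agent.Helper94.SV.KTwo
import Pool.Agent.Helper46.SV.KQ1

/-!
# 2-groups whose finite subgroups have no dihedral section of order 16 are locally finite

`LocFin G` says that every finitely generated subgroup of `G` is finite; `DihedralGroup 8` is the
dihedral group of order 16.

Let `G` be a group in which the order of every element is a power of 2.  If no section `H / K` of `G`
with `H` finite is isomorphic to the dihedral group of order 16, then `G` is locally finite.
-/

set_option autoImplicit false

open Pool.Agent.Helper94.SV

namespace Pool.Agent.Results.MP_2c326f_al.TwoGroups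

universe u

theorem result (G : Type u) [Group G] (h2 : ∀ g : G, ∃ n : ℕ, g ^ (2 ^ n) = 1)
    (hD : ∀ (H : Subgroup G) (K : Subgroup H) [K.Normal], Finite H →
      IsEmpty ((H ⧸ K) ≃* DihedralGroup 8)) :
    LocFin G :=
  KTwo.partB' Pool.Agent.Helper46.SV.hkq1 G h2 hD

end Pool.Agent.Results.MP_2c326f_al.TwoGroups
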